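import Mathlib

/-!
# Dense sets in `F_2^n` whose sumset contains no subspace of linear dimension

For `A ⊆ F_2^n` of density at least `2^{-d}` the problem asks whether, when `n = C d`, there must be
a subspace `V` of dimension at least `d` such that every `v ∈ V` is a difference `a - (a + v)` of two
points of `A ∖ V`.  We show that the answer is no, in a strong form: for every `n ≤ d^{3/2}/32` there
is `A ⊆ F_2^n` of density at least `2^{-d}` such that `A + A` contains no subspace of dimension `d`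
at all.

Construction: `A` is the intersection of `⌊d/2⌋` preimages, under random linear maps
`F_2^n → F_2^{2k}` with `k = ⌊d/4⌋`, of (translates of) the Hamming ball of radius `k - s`, where
`s ≈ √d/8`; such a ball has density at least `1/4`, so for suitable translates `A` has density at
least `2^{-d}`.  If `V ⊆ A + A` then each of the maps sends `V` to a subspace all of whose vectors have
weight at most `2k - 2s`, hence of dimension at most `2k - 2s`; a union bound over all `V` of
dimension `d` shows that this does not happen for a suitable choice of the maps.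
-/

set_option linter.unusedSimpArgs false
set_option linter.style.longLine false

namespace Pool.Agent.Results.MP_f92abf_co.NiveauIntersections

open Finset

/-- The group `F_2^n`. -/
abbrev G (n : ℕ) := Fin n → ZMod 2

/-- The density `μ(A) = |A| / 2^n`. -/
noncomputable def density {n : ℕ} (A : Finset (G n)) : ℝ := (A.card : ℝ) / 2 ^ n

/-- Every `v ∈ V` admits some `a ∈ A ∖ V` with `a + v ∈ A`. -/
def TwoPoint {n : ℕ} (A : Finset (G n)) (V : Submodule (ZMod 2) (G n)) : Prop :=
  ∀ v ∈ V, ∃ a ∈ A, a ∉ V ∧ a + v ∈ A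

/-- The property of `d` in the definition of `f(n, α)`: every `A ⊆ F_2^n` of density at least `α`
has a subspace `V` of dimension at least `d` such that every `v ∈ V` admits some `a ∈ A ∖ V` with
`a + v ∈ A`. -/
def HasProp (n : ℕ) (α : ℝ) (d : ℕ) : Prop :=
  ∀ A : Finset (G n), α ≤ density A →
    ∃ V : Submodule (ZMod 2) (G n), d ≤ Module.finrank (ZMod 2) V ∧ TwoPoint A V

/-- `f(n, α)`: the largest `d` with `HasProp n α d`. -/
noncomputable def f (n : ℕ) (α : ℝ) : ℕ := sSup {d | HasProp n α d}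

lemma centralBinom_sq (k : ℕ) : (2 * k + 1) * (Nat.centralBinom k) ^ 2 ≤ 16 ^ k := by
  induction k with
  | zero => simp
  | succ k ih =>
    have h := Nat.succ_mul_centralBinom_succ k
    have h2 : (k+1)^2 * ((2*(k+1)+1) * (Nat.centralBinom (k+1))^2) ≤ (k+1)^2 * 16^(k+1) := by
      calc (k+1)^2 * ((2*(k+1)+1) * (Nat.centralBinom (k+1))^2) = (2*k+3) * ((k+1) * Nat.centralBinom (k+1))^2 := by ring
        _ = (2*k+3) * (2 * (2*k+1) * Nat.centralBinom k)^2 := by rw [h]
        _ = (4 * (2*k+3) * (2*k+1)) * ((2*k+1) * (Nat.centralBinom k)^2) := by ring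
        _ ≤ (4 * (2*k+3) * (2*k+1)) * 16^k := Nat.mul_le_mul_left _ ih
        _ ≤ (16 * (k+1)^2) * 16^k := Nat.mul_le_mul_right _ (by nlinarith)
        _ = (k+1)^2 * 16^(k+1) := by ring
    exact Nat.le_of_mul_le_mul_left h2 (by positivity)

lemma card_low (k s : ℕ) (hs : 16 * s ^ 2 ≤ 2 * k + 1) :
    4 ^ k ≤ 4 * ((Finset.univ : Finset (Finset (Fin (2*k)))).filter (fun S => S.card + s ≤ k)).card := by
  set L := (Finset.univ : Finset (Finset (Fin (2*k)))).filter (fun S => S.card + s ≤ k) with hL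
  set H := (Finset.univ : Finset (Finset (Fin (2*k)))).filter (fun S => k + s ≤ S.card) with hH
  set M := (Finset.univ : Finset (Finset (Fin (2*k)))).filter (fun S => k < S.card + s ∧ S.card < k + s) with hM
  have hcov : (Finset.univ : Finset (Finset (Fin (2*k)))) ⊆ (L ∪ M) ∪ H := by
    intro S _
    simp only [hL, hM, hH, mem_union, mem_filter, mem_univ, true_and]
    omega
  have htot : (Finset.univ : Finset (Finset (Fin (2*k)))).card = 4 ^ k := by
    rw [Finset.card_univ, Fintype.card_finset, Fintype.card_fin, pow_mul]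
    norm_num
  have hHL : H.card ≤ L.card := by
    apply Finset.card_le_card_of_injOn (fun S => Sᶜ)
    · intro S hS
      simp only [hH, coe_filter, mem_univ, true_and, Set.mem_ofPred_eq] at hS
      simp only [hL, coe_filter, mem_univ, true_and, Set.mem_ofPred_eq, Finset.card_compl, Fintype.card_fin]
      have : S.card ≤ 2 * k := by simpa using Finset.card_le_univ S
      omega
    · intro a _ b _ h
      exact compl_injective h
  have hMc : M.card ≤ (2 * s) * Nat.centralBinom k := by
    have hsub : M ⊆ (Finset.Ico (k + 1 - s) (k + s)).biUnion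
        (fun r => (Finset.univ : Finset (Finset (Fin (2*k)))).filter (fun S => S.card = r)) := by
      intro S hS
      simp only [hM, mem_filter, mem_univ, true_and] at hS
      simp only [mem_biUnion, mem_Ico, mem_filter, mem_univ, true_and]
      exact ⟨S.card, ⟨by omega, by omega⟩, rfl⟩
    calc M.card ≤ _ := Finset.card_le_card hsub
      _ ≤ ∑ r ∈ Finset.Ico (k + 1 - s) (k + s), ((Finset.univ : Finset (Finset (Fin (2*k)))).filter (fun S => S.card = r)).card := Finset.card_biUnion_le
      _ ≤ ∑ r ∈ Finset.Ico (k + 1 - s) (k + s), Nat.centralBinom k := by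
        apply Finset.sum_le_sum
        intro r _
        have : ((Finset.univ : Finset (Finset (Fin (2*k)))).filter (fun S => S.card = r)).card = Nat.choose (2*k) r := by
          rw [Finset.univ_filter_card_eq, Finset.card_powersetCard]
          simp
        rw [this]
        exact Nat.choose_le_centralBinom r k
      _ = (k + s - (k + 1 - s)) * Nat.centralBinom k := by simp
      _ ≤ (2 * s) * Nat.centralBinom k := Nat.mul_le_mul_right _ (by omega)
  have hcb : 4 * s * Nat.centralBinom k ≤ 4 ^ k := by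
    have h1 := centralBinom_sq k
    have h2 : (4 * s * Nat.centralBinom k) ^ 2 ≤ (4 ^ k) ^ 2 := by
      calc (4 * s * Nat.centralBinom k) ^ 2 = (16 * s ^ 2) * (Nat.centralBinom k) ^ 2 := by ring
        _ ≤ (2 * k + 1) * (Nat.centralBinom k) ^ 2 := Nat.mul_le_mul_right _ hs
        _ ≤ 16 ^ k := h1
        _ = (4 ^ k) ^ 2 := by rw [← pow_mul, mul_comm, pow_mul]; norm_num
    exact (Nat.pow_le_pow_iff_left (by norm_num)).1 h2
  have h3 : 4 ^ k ≤ (L.card + M.card) + H.card := by
    rw [← htot]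
    calc _ ≤ ((L ∪ M) ∪ H).card := Finset.card_le_card hcov
      _ ≤ (L ∪ M).card + H.card := Finset.card_union_le _ _
      _ ≤ (L.card + M.card) + H.card := Nat.add_le_add_right (Finset.card_union_le _ _) _
  have h4 : 4 * s * Nat.centralBinom k = 2 * ((2 * s) * Nat.centralBinom k) := by ring
  omega

/-- the weight -/
def wt {m : ℕ} (y : G m) : ℕ := (Finset.univ.filter (fun i => y i ≠ 0)).card

lemma wt_add_le {m : ℕ} (y z : G m) : wt (y + z) ≤ wt y + wt z := by
  unfold wt
  refine le_trans (Finset.card_le_card ?_) (Finset.card_union_le _ _)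
  intro i hi
  simp only [mem_filter, mem_univ, true_and, Pi.add_apply, mem_union] at hi ⊢
  by_contra h
  push Not at h
  apply hi
  rw [h.1, h.2, add_zero]

/-- the niveau set -/
def niveau (k s : ℕ) : Finset (G (2 * k)) := Finset.univ.filter (fun y => wt y + s ≤ k)

lemma card_niveau (k s : ℕ) (hs : 16 * s ^ 2 ≤ 2 * k + 1) : 2 ^ (2 * k) ≤ 4 * (niveau k s).card := by
  have h1 := card_low k s hs
  have h2 : ((Finset.univ : Finset (Finset (Fin (2*k)))).filter (fun S => S.card + s ≤ k)).card ≤ (niveau k s).card := by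
    apply Finset.card_le_card_of_injOn (fun S => fun i => if i ∈ S then (1 : ZMod 2) else 0)
    · intro S hS
      have hS' : S.card + s ≤ k := by simpa using hS
      have hw : wt (fun i => if i ∈ S then (1 : ZMod 2) else 0) = S.card := by
        unfold wt
        congr 1
        ext i
        simp
      have : (fun i => if i ∈ S then (1 : ZMod 2) else 0) ∈ niveau k s := by
        rw [niveau, mem_filter]
        exact ⟨mem_univ _, by rw [hw]; exact hS'⟩
      exact this
    · intro S _ T _ h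
      ext i
      have := congrFun h i
      by_cases h1 : i ∈ S <;> by_cases h2 : i ∈ T <;> simp [h1, h2] at this ⊢
  have h3 : (2:ℕ) ^ (2 * k) = 4 ^ k := by rw [pow_mul]; norm_num
  omega

lemma finrank_le_of_wt {m r : ℕ} (W : Submodule (ZMod 2) (G m)) (h : ∀ w ∈ W, wt w ≤ r) :
    Module.finrank (ZMod 2) W ≤ r := by
  classical
  -- maximal I such that the projection is surjective
  let P : Finset (Fin m) → Prop := fun I => ∀ y : G m, ∃ w ∈ W, ∀ i ∈ I, w i = y i
  have hP0 : P ∅ := fun y => ⟨0, W.zero_mem, by simp⟩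
  obtain ⟨I, hI, hmax⟩ := Finset.exists_max_image (Finset.univ.filter P) Finset.card ⟨∅, by simpa using hP0⟩
  have hIP : P I := (mem_filter.1 hI).2
  have hinj : ∀ w ∈ W, (∀ i ∈ I, w i = 0) → w = 0 := by
    intro w hw hw0
    by_contra hne
    obtain ⟨j, hj⟩ : ∃ j, w j ≠ 0 := by
      by_contra hh
      push Not at hh
      exact hne (funext hh)
    have hjI : j ∉ I := fun hjI => hj (hw0 j hjI)
    have hj1 : w j = 1 := by
      have : ∀ a : ZMod 2, a ≠ 0 → a = 1 := by decide
      exact this _ hj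
    have hP' : P (insert j I) := by
      intro y
      obtain ⟨x, hx, hxi⟩ := hIP y
      by_cases hxy : x j = y j
      · refine ⟨x, hx, ?_⟩
        intro i hi
        rcases mem_insert.1 hi with rfl | hi
        · exact hxy
        · exact hxi i hi
      · refine ⟨x + w, W.add_mem hx hw, ?_⟩
        intro i hi
        rcases mem_insert.1 hi with rfl | hi
        · have : ∀ a b : ZMod 2, a ≠ b → a + 1 = b := by decide
          rw [Pi.add_apply, hj1]
          exact this _ _ hxy
        · rw [Pi.add_apply, hw0 i hi, add_zero]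
          exact hxi i hi
    have := hmax (insert j I) (by simpa using hP')
    rw [card_insert_of_notMem hjI] at this
    omega
  -- finrank W ≤ |I|
  have h1 : Module.finrank (ZMod 2) W ≤ I.card := by
    let F : W →ₗ[ZMod 2] (I → ZMod 2) := (LinearMap.funLeft (ZMod 2) (ZMod 2) (fun i : I => (i : Fin m))).comp W.subtype
    have hF : Function.Injective F := by
      rw [injective_iff_map_eq_zero]
      intro w hw
      have : (w : G m) = 0 := by
        apply hinj w w.2
        intro i hi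
        have := congrFun hw ⟨i, hi⟩
        simpa [F, LinearMap.funLeft_apply] using this
      exact Subtype.ext this
    have := LinearMap.finrank_le_finrank_of_injective hF
    simpa using this
  obtain ⟨w, hw, hwi⟩ := hIP (fun _ => 1)
  have h2 : I.card ≤ wt w := by
    apply Finset.card_le_card
    intro i hi
    simp only [mem_filter, mem_univ, true_and]
    rw [hwi i hi]
    decide
  exact h1.trans (h2.trans (h w hw))

/-- number of linear maps killed by `Λ` on given independent vectors -/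
lemma card_kill {n m q d : ℕ} (v : Fin d → G n) (hv : LinearIndependent (ZMod 2) v)
    (Λ : G m →ₗ[ZMod 2] G q) (hΛ : Function.Surjective Λ) :
    Nat.card {π : G n →ₗ[ZMod 2] G m // ∀ j, Λ (π (v j)) = 0} * 2 ^ (q * d) = 2 ^ (n * m) := by
  classical
  -- the map π ↦ (Λ (π (v j)))_j
  let Φ : (G n →ₗ[ZMod 2] G m) →ₗ[ZMod 2] (Fin d → G q) :=
    { toFun := fun π j => Λ (π (v j))
      map_add' := by intro a b; ext j; simp
      map_smul' := by intro a b; ext j; simp }
  have hsurj : Function.Surjective Φ := by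
    intro y
    obtain ⟨σ, hσ⟩ := LinearMap.exists_rightInverse_of_surjective Λ (LinearMap.range_eq_top.2 hΛ)
    -- extend
    obtain ⟨g, hg⟩ : ∃ g : G n →ₗ[ZMod 2] G q, ∀ j, g (v j) = y j := by
      obtain ⟨g, hg⟩ := LinearMap.exists_extend ((Module.Basis.span hv).constr (ZMod 2) y)
      refine ⟨g, fun j => ?_⟩
      have h1 := congrArg (fun F => F (Module.Basis.span hv j)) hg
      have h2 := Module.Basis.constr_basis (Module.Basis.span hv) (ZMod 2) y j
      have h3 : g ((Module.Basis.span hv j : _) : G n) = y j := by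
        rw [← h2]; exact h1
      rw [Module.Basis.span_apply] at h3
      exact h3
    refine ⟨σ.comp g, ?_⟩
    ext j : 1
    show Λ (σ (g (v j))) = y j
    rw [hg]
    exact congrArg (fun F => F (y j)) hσ
  have h1 := LinearMap.finrank_range_add_finrank_ker Φ
  rw [LinearMap.range_eq_top.2 hsurj, finrank_top, Module.finrank_linearMap] at h1
  simp only [Module.finrank_pi_fintype, Module.finrank_self, Fintype.card_fin, sum_const, card_univ, smul_eq_mul, mul_one] at h1
  have h2 : Nat.card {π : G n →ₗ[ZMod 2] G m // ∀ j, Λ (π (v j)) = 0} = 2 ^ (Module.finrank (ZMod 2) (LinearMap.ker Φ)) := by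
    have h3 : Nat.card (LinearMap.ker Φ) = 2 ^ (Module.finrank (ZMod 2) (LinearMap.ker Φ)) := by
      rw [Module.natCard_eq_pow_finrank (K := ZMod 2)]
      simp
    rw [← h3]
    apply Nat.card_congr
    apply Equiv.subtypeEquivRight
    intro π
    rw [LinearMap.mem_ker]
    constructor
    · intro h; ext j : 1; exact h j
    · intro h j; exact congrFun h j
  rw [h2, ← pow_add]
  congr 1
  rw [← h1]; ring

lemma card_hom (n m : ℕ) : Nat.card (G n →ₗ[ZMod 2] G m) = 2 ^ (n * m) := by
  rw [Module.natCard_eq_pow_finrank (K := ZMod 2), Module.finrank_linearMap]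
  simp

lemma card_G (n : ℕ) : Fintype.card (G n) = 2 ^ n := by simp

noncomputable instance instFintypeHom (n m : ℕ) : Fintype (G n →ₗ[ZMod 2] G m) :=
  haveI : Finite (G n →ₗ[ZMod 2] G m) := Module.finite_of_finite (ZMod 2)
  Fintype.ofFinite _

open Classical in
/-- the tuples of maps which fail for `v` -/
noncomputable def badSet {n m q d : ℕ} (v : Fin d → G n) : Finset (G n →ₗ[ZMod 2] G m) :=
  univ.filter (fun π => ∃ Λ : G m →ₗ[ZMod 2] G q, Function.Surjective Λ ∧ ∀ j, Λ (π (v j)) = 0)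

lemma card_badSet {n m q d : ℕ} (v : Fin d → G n) (hv : LinearIndependent (ZMod 2) v) :
    (badSet (m := m) (q := q) v).card * 2 ^ (q * d) ≤ 2 ^ (m * q) * 2 ^ (n * m) := by
  classical
  have h1 : (badSet (m := m) (q := q) v) ⊆ (univ.filter (fun Λ : G m →ₗ[ZMod 2] G q => Function.Surjective Λ)).biUnion
      (fun Λ => univ.filter (fun π : G n →ₗ[ZMod 2] G m => ∀ j, Λ (π (v j)) = 0)) := by
    intro π hπ
    simp only [badSet, mem_filter, mem_univ, true_and] at hπ
    simp only [mem_biUnion, mem_filter, mem_univ, true_and]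
    exact hπ
  calc (badSet (m := m) (q := q) v).card * 2 ^ (q * d) 
      ≤ (∑ Λ ∈ univ.filter (fun Λ : G m →ₗ[ZMod 2] G q => Function.Surjective Λ), (univ.filter (fun π : G n →ₗ[ZMod 2] G m => ∀ j, Λ (π (v j)) = 0)).card) * 2 ^ (q * d) :=
        Nat.mul_le_mul_right _ ((Finset.card_le_card h1).trans Finset.card_biUnion_le)
    _ = ∑ Λ ∈ univ.filter (fun Λ : G m →ₗ[ZMod 2] G q => Function.Surjective Λ), (univ.filter (fun π : G n →ₗ[ZMod 2] G m => ∀ j, Λ (π (v j)) = 0)).card * 2 ^ (q * d) := by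
        rw [Finset.sum_mul]
    _ = ∑ Λ ∈ univ.filter (fun Λ : G m →ₗ[ZMod 2] G q => Function.Surjective Λ), 2 ^ (n * m) := by
        apply Finset.sum_congr rfl
        intro Λ hΛ
        rw [← card_kill v hv Λ (mem_filter.1 hΛ).2]
        congr 1
        rw [Nat.card_eq_fintype_card, Fintype.card_subtype]
    _ = (univ.filter (fun Λ : G m →ₗ[ZMod 2] G q => Function.Surjective Λ)).card * 2 ^ (n * m) := by
        rw [Finset.sum_const, smul_eq_mul]
    _ ≤ 2 ^ (m * q) * 2 ^ (n * m) := by
        apply Nat.mul_le_mul_right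
        calc _ ≤ (univ : Finset (G m →ₗ[ZMod 2] G q)).card := Finset.card_le_card (Finset.filter_subset _ _)
          _ = 2 ^ (m * q) := by
            rw [Finset.card_univ, ← Nat.card_eq_fintype_card, card_hom]

/-- good tuples of maps exist -/
lemma exists_maps {n m q d t : ℕ} (h : n * d + m * q * t < q * d * t) :
    ∃ π : Fin t → (G n →ₗ[ZMod 2] G m), ∀ v : Fin d → G n, LinearIndependent (ZMod 2) v →
      ∃ i, ∀ Λ : G m →ₗ[ZMod 2] G q, Function.Surjective Λ → ∃ j, Λ (π i (v j)) ≠ 0 := by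
  classical
  by_contra hcon
  push Not at hcon
  -- all tuples are covered
  have hcov : (univ : Finset (Fin t → (G n →ₗ[ZMod 2] G m))) ⊆
      (univ.filter (fun v : Fin d → G n => LinearIndependent (ZMod 2) v)).biUnion
        (fun v => Fintype.piFinset (fun _ : Fin t => badSet (m := m) (q := q) v)) := by
    intro π _
    obtain ⟨v, hv, h1⟩ := hcon π
    simp only [mem_biUnion, mem_filter, mem_univ, true_and, Fintype.mem_piFinset, badSet]
    exact ⟨v, hv, h1⟩
  have h1 := (Finset.card_le_card hcov).trans Finset.card_biUnion_le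
  rw [Finset.card_univ, Fintype.card_fun, Fintype.card_fin, ← Nat.card_eq_fintype_card, card_hom] at h1
  have h2 : ∀ v ∈ (univ.filter (fun v : Fin d → G n => LinearIndependent (ZMod 2) v)),
      (Fintype.piFinset (fun _ : Fin t => badSet (m := m) (q := q) v)).card * 2 ^ (q * d * t) ≤ 2 ^ (m * q * t) * 2 ^ (n * m * t) := by
    intro v hv
    rw [Fintype.card_piFinset, Finset.prod_const, Finset.card_univ, Fintype.card_fin, pow_mul 2 (q * d) t, ← mul_pow,
      pow_mul 2 (m * q) t, pow_mul 2 (n * m) t, ← mul_pow]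
    exact Nat.pow_le_pow_left (card_badSet v (mem_filter.1 hv).2) t
  have h3 : (2 ^ (n * m)) ^ t * 2 ^ (q * d * t) ≤ 2 ^ (n * d) * (2 ^ (m * q * t) * 2 ^ (n * m * t)) := by
    calc (2 ^ (n * m)) ^ t * 2 ^ (q * d * t) ≤ (∑ v ∈ (univ.filter (fun v : Fin d → G n => LinearIndependent (ZMod 2) v)), (Fintype.piFinset (fun _ : Fin t => badSet (m := m) (q := q) v)).card) * 2 ^ (q * d * t) := Nat.mul_le_mul_right _ h1
      _ = ∑ v ∈ (univ.filter (fun v : Fin d → G n => LinearIndependent (ZMod 2) v)), (Fintype.piFinset (fun _ : Fin t => badSet (m := m) (q := q) v)).card * 2 ^ (q * d * t) := by rw [Finset.sum_mul]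
      _ ≤ ∑ v ∈ (univ.filter (fun v : Fin d → G n => LinearIndependent (ZMod 2) v)), (2 ^ (m * q * t) * 2 ^ (n * m * t)) := Finset.sum_le_sum h2
      _ = (univ.filter (fun v : Fin d → G n => LinearIndependent (ZMod 2) v)).card * (2 ^ (m * q * t) * 2 ^ (n * m * t)) := by rw [Finset.sum_const, smul_eq_mul]
      _ ≤ 2 ^ (n * d) * (2 ^ (m * q * t) * 2 ^ (n * m * t)) := by
        apply Nat.mul_le_mul_right
        calc _ ≤ (univ : Finset (Fin d → G n)).card := Finset.card_le_card (Finset.filter_subset _ _)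
          _ = 2 ^ (n * d) := by
            rw [Finset.card_univ, Fintype.card_fun, card_G, Fintype.card_fin, ← pow_mul]
  rw [← pow_mul, ← pow_add, ← pow_add, ← pow_add] at h3
  have h4 := (Nat.pow_le_pow_iff_right (by norm_num : 1 < 2)).1 h3
  omega

/-- good shifts exist -/
lemma exists_shift {n m t : ℕ} (N : Finset (G m)) (hN : 2 ^ m ≤ 4 * N.card)
    (π : Fin t → (G n →ₗ[ZMod 2] G m)) :
    ∃ u : Fin t → G m, 2 ^ n ≤ (univ.filter (fun x : G n => ∀ i, π i x + u i ∈ N)).card * 4 ^ t := by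
  classical
  by_contra hcon
  push Not at hcon
  have h1 : ∑ u : Fin t → G m, (univ.filter (fun x : G n => ∀ i, π i x + u i ∈ N)).card = 2 ^ n * N.card ^ t := by
    have : ∀ u : Fin t → G m, (univ.filter (fun x : G n => ∀ i, π i x + u i ∈ N)).card = ∑ x : G n, if (∀ i, π i x + u i ∈ N) then 1 else 0 := by
      intro u; rw [Finset.card_filter]
    simp_rw [this]
    rw [Finset.sum_comm]
    have h2 : ∀ x : G n, (∑ u : Fin t → G m, if (∀ i, π i x + u i ∈ N) then 1 else 0) = N.card ^ t := by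
      intro x
      rw [← Finset.card_filter]
      have h3 : (univ.filter (fun u : Fin t → G m => ∀ i, π i x + u i ∈ N)).card = (Fintype.piFinset (fun _ : Fin t => N)).card := by
        apply Finset.card_bij' (fun u _ => fun i => π i x + u i) (fun u _ => fun i => u i - π i x)
        · intro u hu
          simpa using hu
        · intro u hu
          simpa using hu
        · intro u _
          ext i : 1
          exact add_sub_cancel_left _ _
        · intro u _
          ext i : 1
          exact add_sub_cancel _ _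
      rw [h3, Fintype.card_piFinset, Finset.prod_const, Finset.card_univ, Fintype.card_fin]
    rw [Finset.sum_congr rfl (fun x _ => h2 x), Finset.sum_const, Finset.card_univ, card_G, smul_eq_mul]
  have h2 : (∑ u : Fin t → G m, (univ.filter (fun x : G n => ∀ i, π i x + u i ∈ N)).card) * 4 ^ t < ∑ u : Fin t → G m, 2 ^ n := by
    rw [Finset.sum_mul]
    apply Finset.sum_lt_sum_of_nonempty (univ_nonempty)
    intro u _
    exact hcon u
  rw [h1, Finset.sum_const, Finset.card_univ, Fintype.card_fun, card_G, Fintype.card_fin, smul_eq_mul] at h2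
  have h3 : (2 ^ m) ^ t ≤ (4 * N.card) ^ t := Nat.pow_le_pow_left hN t
  rw [mul_pow] at h3
  have h4 : (2 ^ m) ^ t * 2 ^ n ≤ (4 ^ t * N.card ^ t) * 2 ^ n := Nat.mul_le_mul_right _ h3
  have h5 : (4 ^ t * N.card ^ t) * 2 ^ n = 2 ^ n * N.card ^ t * 4 ^ t := by ring
  omega

/-- a subspace of codimension at least `q` is killed by a surjection onto `F_2^q` -/
lemma exists_surj {m q : ℕ} (W : Submodule (ZMod 2) (G m)) (h : Module.finrank (ZMod 2) W + q ≤ m) :
    ∃ Λ : G m →ₗ[ZMod 2] G q, Function.Surjective Λ ∧ ∀ w ∈ W, Λ w = 0 := by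
  have h1 := Submodule.finrank_quotient_add_finrank W
  have h2 : Module.finrank (ZMod 2) (G m) = m := by simp
  have h3 : q ≤ Module.finrank (ZMod 2) (G m ⧸ W) := by omega
  let b := Module.finBasis (ZMod 2) (G m ⧸ W)
  let F : (Fin (Module.finrank (ZMod 2) (G m ⧸ W)) → ZMod 2) →ₗ[ZMod 2] G q :=
    LinearMap.funLeft (ZMod 2) (ZMod 2) (Fin.castLE h3)
  have hF : Function.Surjective F :=
    LinearMap.funLeft_surjective_of_injective _ _ _ (Fin.castLE_injective h3)
  refine ⟨F.comp ((b.equivFun.toLinearMap).comp W.mkQ), ?_, ?_⟩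
  · simp only [LinearMap.coe_comp]
    exact hF.comp (b.equivFun.surjective.comp W.mkQ_surjective)
  · intro w hw
    have : W.mkQ w = 0 := by simpa using hw
    simp only [LinearMap.comp_apply, this, map_zero]

lemma two_smul_G {m : ℕ} (y : G m) : y + y = 0 := by
  ext i
  have : ∀ a : ZMod 2, a + a = 0 := by decide
  exact this _

/-- the core construction -/
theorem core {n k s d : ℕ} (hs : 16 * s ^ 2 ≤ 2 * k + 1) (hsk : s ≤ k)
    (h : n * d + (2 * k) * (2 * s) * (d / 2) < (2 * s) * d * (d / 2)) :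
    ∃ A : Finset (G n), 2 ^ n ≤ A.card * 2 ^ d ∧
      ∀ V : Submodule (ZMod 2) (G n), d ≤ Module.finrank (ZMod 2) V →
        ∃ v ∈ V, ∀ a ∈ A, a + v ∉ A := by
  classical
  obtain ⟨π, hπ⟩ := exists_maps (m := 2 * k) (q := 2 * s) (t := d / 2) (n := n) (d := d) h
  obtain ⟨u, hu⟩ := exists_shift (niveau k s) (card_niveau k s hs) π
  refine ⟨univ.filter (fun x : G n => ∀ i, π i x + u i ∈ niveau k s), hu.trans ?_, ?_⟩
  · apply Nat.mul_le_mul_left
    have : (4:ℕ) ^ (d / 2) = 2 ^ (2 * (d / 2)) := by rw [pow_mul]; norm_num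
    rw [this]
    exact Nat.pow_le_pow_right (by norm_num) (by omega)
  · intro V hV
    by_contra hcon
    push Not at hcon
    -- independent vectors in `V`
    obtain ⟨v, hv⟩ : ∃ v : Fin d → V, LinearIndependent (ZMod 2) v := by
      have b := (Module.finBasis (ZMod 2) V).linearIndependent
      exact ⟨_, b.comp (Fin.castLE hV) (Fin.castLE_injective hV)⟩
    have hv' : LinearIndependent (ZMod 2) (fun j => (v j : G n)) := 
      hv.map' V.subtype (Submodule.ker_subtype V)
    obtain ⟨i, hi⟩ := hπ _ hv'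
    have hW : Module.finrank (ZMod 2) (V.map (π i)) ≤ 2 * k - 2 * s := by
      apply finrank_le_of_wt
      intro w hw
      obtain ⟨x, hx, rfl⟩ := Submodule.mem_map.1 hw
      obtain ⟨a, ha, hax⟩ := hcon x hx
      have h1 := (mem_filter.1 ha).2 i
      have h2 := (mem_filter.1 hax).2 i
      rw [niveau, mem_filter] at h1 h2
      have h3 : (π i) x = (π i a + u i) + (π i (a + x) + u i) := by
        rw [map_add]
        have e1 := two_smul_G (π i a)
        have e2 := two_smul_G (u i)
        calc (π i) x = (π i a + π i a) + (u i + u i) + π i x := by rw [e1, e2]; simp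
          _ = _ := by abel
      rw [h3]
      have := wt_add_le (π i a + u i) (π i (a + x) + u i)
      omega
    obtain ⟨Λ, hΛ, hΛ0⟩ := exists_surj (q := 2 * s) (V.map (π i)) (by omega)
    obtain ⟨j, hj⟩ := hi Λ hΛ
    exact hj (hΛ0 _ (Submodule.mem_map_of_mem (v j).2))

/-- the arithmetic of the parameters -/
lemma params {d n : ℕ} (hd : 256 ≤ d) (hn : 1024 * n ^ 2 ≤ d ^ 3) :
    ∃ k s : ℕ, 16 * s ^ 2 ≤ 2 * k + 1 ∧ s ≤ k ∧
      n * d + (2 * k) * (2 * s) * (d / 2) < (2 * s) * d * (d / 2) := by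
  obtain ⟨r, hr⟩ : ∃ r, r = Nat.sqrt d := ⟨_, rfl⟩
  have hr1 : r * r ≤ d := by rw [hr]; exact Nat.sqrt_le d
  have hr2 : d < (r + 1) * (r + 1) := by rw [hr]; exact Nat.lt_succ_sqrt d
  obtain ⟨s, hs⟩ : ∃ s, s = r / 8 := ⟨_, rfl⟩
  obtain ⟨k, hk⟩ : ∃ k, k = d / 4 := ⟨_, rfl⟩
  obtain ⟨D, hD⟩ : ∃ D, D = d / 2 := ⟨_, rfl⟩
  have h8s : 8 * s ≤ r := by omega
  have hr8 : r + 1 ≤ 8 * (s + 1) := by omega
  have hr16 : 16 ≤ r := by
    by_contra h
    have h1 : r + 1 ≤ 16 := by omega
    have h2 := Nat.mul_le_mul h1 h1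
    omega
  have hs2 : 2 ≤ s := by omega
  have h64 : 64 * s ^ 2 ≤ d := by
    have h1 := Nat.mul_le_mul h8s h8s
    calc 64 * s ^ 2 = 8 * s * (8 * s) := by ring
      _ ≤ r * r := h1
      _ ≤ d := hr1
  have hd64 : d < 64 * (s + 1) ^ 2 := by
    have h1 := Nat.mul_le_mul hr8 hr8
    calc d < (r + 1) * (r + 1) := hr2
      _ ≤ 8 * (s + 1) * (8 * (s + 1)) := h1
      _ = 64 * (s + 1) ^ 2 := by ring
  have hsd : 16 * s ^ 2 ≤ 2 * k + 1 := by omega
  have hsk : s ≤ k := by
    have h1 : 2 * s ≤ s ^ 2 := by rw [sq]; exact Nat.mul_le_mul_right _ hs2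
    omega
  have hn4 : 4 * n < d * (s + 1) := by
    by_contra h
    push Not at h
    have h1 : (d * (s + 1)) ^ 2 ≤ (4 * n) ^ 2 := Nat.pow_le_pow_left h 2
    have h3 : d ^ 2 * (64 * (s + 1) ^ 2) ≤ d ^ 2 * d := by
      calc d ^ 2 * (64 * (s + 1) ^ 2) = 64 * (d * (s + 1)) ^ 2 := by ring
        _ ≤ 64 * (4 * n) ^ 2 := Nat.mul_le_mul_left _ h1
        _ = 1024 * n ^ 2 := by ring
        _ ≤ d ^ 3 := hn
        _ = d ^ 2 * d := by ring
    have h4 := Nat.le_of_mul_le_mul_left h3 (by positivity)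
    omega
  refine ⟨k, s, hsd, hsk, ?_⟩
  rw [← hD]
  have hk4 : 4 * k ≤ d := by omega
  have hD2 : d ≤ 2 * D + 1 := by omega
  have h2s : 2 * s ≤ d := by omega
  have h2d : 2 * d ≤ s * d := Nat.mul_le_mul_right _ hs2
  -- 2 n < s (d - 1)
  have h5 : 2 * n + s < s * d := by
    have h1 : d * (s + 1) = s * d + d := by ring
    rw [h1] at hn4
    generalize s * d = X at *
    omega
  have h7 : (2 * n + s) * d < (s * d) * d := Nat.mul_lt_mul_of_pos_right h5 (by omega)
  have h8 : s * d * d ≤ s * d * (2 * D + 1) := Nat.mul_le_mul_left _ hD2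
  have h9 : (s * D) * (4 * k) ≤ (s * D) * d := Nat.mul_le_mul_left _ hk4
  have e1 : (2 * n + s) * d = 2 * (n * d) + s * d := by ring
  have e2 : s * d * (2 * D + 1) = 2 * (s * d * D) + s * d := by ring
  have e3 : (s * D) * (4 * k) = (2 * k) * (2 * s) * D := by ring
  have e4 : (s * D) * d = s * d * D := by ring
  have e5 : (2 * s) * d * D = 2 * (s * d * D) := by ring
  rw [e1] at h7
  rw [e2] at h8
  rw [e3, e4] at h9
  rw [e5]
  generalize (2 * k) * (2 * s) * D = Y at *
  generalize s * d * D = Z at *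
  generalize s * d * d = T at *
  generalize s * d = U at *
  generalize n * d = N at *
  omega

/-- the set -/
theorem exists_set {d n : ℕ} (hd : 256 ≤ d) (hn : 1024 * n ^ 2 ≤ d ^ 3) :
    ∃ A : Finset (G n), (2 : ℝ) ^ (-(d : ℤ)) ≤ density A ∧
      ∀ V : Submodule (ZMod 2) (G n), d ≤ Module.finrank (ZMod 2) V →
        ∃ v ∈ V, ∀ a ∈ A, a + v ∉ A := by
  obtain ⟨k, s, h1, h2, h3⟩ := params hd hn
  obtain ⟨A, hA, hV⟩ := core h1 h2 h3
  refine ⟨A, ?_, hV⟩
  unfold density
  rw [zpow_neg, zpow_natCast, inv_eq_one_div, div_le_div_iff₀ (by positivity) (by positivity), one_mul]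
  exact_mod_cast hA

theorem f_lt {d n : ℕ} (hd : 256 ≤ d) (hn : 1024 * n ^ 2 ≤ d ^ 3) :
    f n ((2 : ℝ) ^ (-(d : ℤ))) < d := by
  by_contra hcon
  push Not at hcon
  have hne : {e | HasProp n ((2 : ℝ) ^ (-(d : ℤ))) e}.Nonempty := by
    by_contra h
    rw [Set.not_nonempty_iff_eq_empty] at h
    rw [f, h] at hcon
    simp at hcon
    omega
  have hbdd : BddAbove {e | HasProp n ((2 : ℝ) ^ (-(d : ℤ))) e} := by
    by_contra h
    rw [f, Nat.sSup_of_not_bddAbove h] at hcon
    omega
  have hmem := Nat.sSup_mem hne hbdd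
  obtain ⟨A, hA, hV⟩ := exists_set hd hn
  obtain ⟨V, hV1, hV2⟩ := hmem A hA
  obtain ⟨v, hv, hva⟩ := hV V (hcon.trans hV1)
  obtain ⟨a, ha, _, hav⟩ := hV2 v hv
  exact hva a ha hav

/-- Main theorem.  (1) For all `d ≥ 256` and all `n ≤ d^{3/2}/32` there is a set `A ⊆ F_2^n` of density
at least `2^{-d}` such that no subspace of dimension at least `d` is contained in `A + A`; in
particular `f(n, 2^{-d}) < d`.  (2) For every `C > 0`, `f(⌈C d⌉, 2^{-d}) < d` for all large `d`.
(3) There is no absolute constant `C > 0` with `f(⌈C d⌉, 2^{-d}) ≥ d` for all `d ≥ 1`. -/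
theorem result :
    (∀ d n : ℕ, 256 ≤ d → 1024 * n ^ 2 ≤ d ^ 3 →
      (∃ A : Finset (G n), (2 : ℝ) ^ (-(d : ℤ)) ≤ density A ∧
        ∀ V : Submodule (ZMod 2) (G n), d ≤ Module.finrank (ZMod 2) V →
          ∃ v ∈ V, ∀ a ∈ A, a + v ∉ A) ∧
      f n ((2 : ℝ) ^ (-(d : ℤ))) < d) ∧
    (∀ C : ℝ, 0 < C → ∃ d₀ : ℕ, ∀ d : ℕ, d₀ ≤ d → f ⌈C * d⌉₊ ((2 : ℝ) ^ (-(d : ℤ))) < d) ∧
    ¬ ∃ C : ℝ, 0 < C ∧ ∀ d : ℕ, 1 ≤ d → d ≤ f ⌈C * d⌉₊ ((2 : ℝ) ^ (-(d : ℤ))) := by
  have hlin : ∀ C : ℝ, 0 < C → ∃ d₀ : ℕ, ∀ d : ℕ, d₀ ≤ d →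
      f ⌈C * d⌉₊ ((2 : ℝ) ^ (-(d : ℤ))) < d := by
    intro C hC
    refine ⟨256 + ⌈1024 * (C + 1) ^ 2⌉₊, fun d hd => ?_⟩
    have hd1 : (256 : ℝ) ≤ d := by
      have : 256 ≤ d := by omega
      exact_mod_cast this
    have hd2 : 1024 * (C + 1) ^ 2 ≤ (d : ℝ) := by
      have h1 : (⌈1024 * (C + 1) ^ 2⌉₊ : ℝ) ≤ d := by
        have : ⌈1024 * (C + 1) ^ 2⌉₊ ≤ d := by omega
        exact_mod_cast this
      exact (Nat.le_ceil _).trans h1
    apply f_lt (by omega)
    have h1 : ((⌈C * d⌉₊ : ℕ) : ℝ) ≤ (C + 1) * d := by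
      have := (Nat.ceil_lt_add_one (by positivity : 0 ≤ C * (d : ℝ))).le
      nlinarith
    have h2 : (1024 * (⌈C * d⌉₊ : ℝ) ^ 2) ≤ (d : ℝ) ^ 3 := by
      calc (1024 * (⌈C * d⌉₊ : ℝ) ^ 2) ≤ 1024 * ((C + 1) * d) ^ 2 := by gcongr
        _ = (1024 * (C + 1) ^ 2) * (d : ℝ) ^ 2 := by ring
        _ ≤ (d : ℝ) * (d : ℝ) ^ 2 := by gcongr
        _ = (d : ℝ) ^ 3 := by ring
    exact_mod_cast h2
  refine ⟨fun d n hd hn => ⟨exists_set hd hn, f_lt hd hn⟩, hlin, ?_⟩
  rintro ⟨C, hC, h⟩
  obtain ⟨d₀, hd₀⟩ := hlin C hC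
  have h1 := hd₀ (d₀ + 1) (by omega)
  have h2 := h (d₀ + 1) (by omega)
  omega

end Pool.Agent.Results.MP_f92abf_co.NiveauIntersections
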